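import Pool.Agent.Y93.VK.DB
import Pool.Agent.Results.MP_c307ca_nt.AlmostAllToHeight

set_option autoImplicit false

/-! # Counting violations of Lang's inequality with exponential sums -/

namespace Pool.Agent.X121.LG

open Finset Filter
open Pool.Agent.Y93.VK (ee ee_add norm_ee ee_eq ee_neg ee_zero)
open Pool.Agent.Results.MP_c307ca_nt.AlmostAllToHeight (w w_summable w_eq w_pos)

lemma sum_dist (g : ℕ → ℝ) (hg : ∀ n, 0 ≤ g n) (H j : ℕ) (hj : j < H) :
    ∑ k ∈ range H, g (max j k - min j k) ≤ g 0 + 2 * ∑ h ∈ Ico 1 H, g h := by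
  have e1 : ∑ k ∈ range H, g (max j k - min j k) =
      ∑ k ∈ range j, g (j - k) + ∑ k ∈ Ico j H, g (k - j) := by
    rw [← Finset.sum_range_add_sum_Ico _ hj.le]
    congr 1
    · refine sum_congr rfl fun k hk => ?_
      rw [mem_range] at hk
      rw [max_eq_left hk.le, min_eq_right hk.le]
    · refine sum_congr rfl fun k hk => ?_
      rw [mem_Ico] at hk
      rw [max_eq_right hk.1, min_eq_left hk.1]
  have e2 : ∑ k ∈ range j, g (j - k) ≤ ∑ h ∈ Ico 1 H, g h := by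
    have h1 : ∑ k ∈ range j, g (j - k) = ∑ h ∈ Ico 1 (j + 1), g h := by
      rw [← Finset.sum_range_reflect]
      rw [Finset.sum_Ico_eq_sum_range]
      refine sum_congr (by congr 1) fun k hk => ?_
      rw [mem_range] at hk
      congr 1
      omega
    rw [h1]
    exact sum_le_sum_of_subset_of_nonneg (Ico_subset_Ico le_rfl (by omega)) fun _ _ _ => hg _
  have e3 : ∑ k ∈ Ico j H, g (k - j) ≤ g 0 + ∑ h ∈ Ico 1 H, g h := by
    have h1 : ∑ k ∈ Ico j H, g (k - j) = ∑ h ∈ Ico 0 (H - j), g h := by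
      rw [Finset.sum_Ico_eq_sum_range, Finset.sum_Ico_eq_sum_range]
      refine sum_congr (by congr 1) fun k hk => ?_
      congr 1
      omega
    rw [h1, Finset.sum_eq_sum_Ico_succ_bot (by omega)]
    have h2 : ∑ h ∈ Ico (0 + 1) (H - j), g h ≤ ∑ h ∈ Ico 1 H, g h :=
      sum_le_sum_of_subset_of_nonneg (Ico_subset_Ico (by omega) (by omega)) fun _ _ _ => hg _
    linarith
  rw [e1]
  linarith

lemma ee_re (t : ℝ) : (ee t).re = Real.cos (2 * Real.pi * t) := by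
  rw [ee_eq, mul_comm, Complex.exp_ofReal_mul_I_re]

lemma ee_addint (t : ℝ) (a : ℤ) : ee (t - a) = ee t := by
  unfold ee
  rw [Complex.exp_eq_exp_iff_exists_int]
  refine ⟨-a, ?_⟩
  push_cast
  ring

/-- numbers close to integers, counted with exponential sums -/
theorem count (S : Finset ℕ) (x : ℕ → ℝ) (H : ℕ) (hH : 1 ≤ H) {δ : ℝ} (hδ : 6 * H * δ ≤ 1)
    (P : ℕ → Prop) [DecidablePred P] (hP : ∀ n ∈ S, P n → ∃ a : ℤ, |x n - a| ≤ δ) :
    ((S.filter P).card : ℝ) * H ≤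
      4 * (S.card + 2 * ∑ h ∈ Ico 1 H, ‖∑ n ∈ S, ee (h * x n)‖) := by
  have hH0 : (0 : ℝ) < H := by exact_mod_cast hH
  -- lower bound for the kernel
  have hlow : ∀ n ∈ S.filter P, (H : ℝ) ^ 2 / 4 ≤ ‖∑ j ∈ range H, ee (j * x n)‖ ^ 2 := by
    intro n hn
    rw [mem_filter] at hn
    obtain ⟨a, ha⟩ := hP n hn.1 hn.2
    have hre : (H : ℝ) / 2 ≤ (∑ j ∈ range H, ee (j * x n)).re := by
      rw [Complex.re_sum]
      have : ∀ j ∈ range H, (1 / 2 : ℝ) ≤ (ee (j * x n)).re := by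
        intro j hj
        rw [mem_range] at hj
        have hjH : (j : ℝ) ≤ H := by exact_mod_cast hj.le
        have hj0 : (0 : ℝ) ≤ j := Nat.cast_nonneg j
        have e : ee (j * x n) = ee (j * (x n - a)) := by
          rw [← ee_addint (j * x n) (j * a)]
          congr 1
          push_cast
          ring
        rw [e, ee_re, ← Real.cos_abs, ← Real.cos_pi_div_three]
        apply Real.cos_le_cos_of_nonneg_of_le_pi (abs_nonneg _)
        · have := Real.pi_pos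
          linarith
        · rw [abs_mul, abs_mul, abs_mul, abs_of_pos Real.pi_pos, abs_of_nonneg hj0, abs_two]
          have h1 : (j : ℝ) * |x n - a| ≤ 1 / 6 := by
            calc (j : ℝ) * |x n - a| ≤ H * δ :=
                  mul_le_mul hjH ha (abs_nonneg _) hH0.le
              _ ≤ 1 / 6 := by linarith
          have := Real.pi_pos
          nlinarith
      calc (H : ℝ) / 2 = ∑ j ∈ range H, (1 / 2 : ℝ) := by
            rw [sum_const, card_range, nsmul_eq_mul]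
            ring
        _ ≤ _ := sum_le_sum this
    have h2 := (hre.trans (Complex.re_le_norm _))
    calc (H : ℝ) ^ 2 / 4 = (H / 2) ^ 2 := by ring
      _ ≤ _ := pow_le_pow_left₀ (by positivity) h2 2
  have h1 : ((S.filter P).card : ℝ) * ((H : ℝ) ^ 2 / 4) ≤
      ∑ n ∈ S, ‖∑ j ∈ range H, ee (j * x n)‖ ^ 2 := by
    calc ((S.filter P).card : ℝ) * ((H : ℝ) ^ 2 / 4) = ∑ n ∈ S.filter P, ((H : ℝ) ^ 2 / 4) := by
          rw [sum_const, nsmul_eq_mul]
      _ ≤ ∑ n ∈ S.filter P, ‖∑ j ∈ range H, ee (j * x n)‖ ^ 2 := sum_le_sum hlow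
      _ ≤ _ := sum_le_sum_of_subset_of_nonneg (filter_subset _ _) fun _ _ _ => by positivity
  -- upper bound
  obtain ⟨g, hg⟩ : ∃ g : ℕ → ℝ, g = fun h : ℕ => ‖∑ n ∈ S, ee ((h : ℝ) * x n)‖ := ⟨_, rfl⟩
  have hg0 : ∀ h, 0 ≤ g h := fun h => by rw [hg]; exact norm_nonneg _
  have hgz : g 0 = S.card := by
    rw [hg]
    simp [ee_zero]
  have hpair : ∀ j k : ℕ, ‖∑ n ∈ S, ee ((j : ℝ) * x n) * (starRingEnd ℂ) (ee ((k : ℝ) * x n))‖ =
      g (max j k - min j k) := by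
    intro j k
    have e0 : ∀ n, ee ((j : ℝ) * x n) * (starRingEnd ℂ) (ee ((k : ℝ) * x n)) =
        ee (((j : ℝ) - k) * x n) := by
      intro n
      rw [← ee_neg, ← ee_add]
      congr 1
      ring
    simp only [e0]
    rw [hg]
    rcases le_total k j with h | h
    · rw [max_eq_left h, min_eq_right h]
      simp only [Nat.cast_sub h]
    · rw [max_eq_right h, min_eq_left h]
      simp only [Nat.cast_sub h]
      have : ∀ n, ee (((j : ℝ) - k) * x n) = (starRingEnd ℂ) (ee (((k : ℝ) - j) * x n)) := by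
        intro n
        rw [← ee_neg]
        congr 1
        ring
      simp only [this]
      rw [← map_sum, Complex.norm_conj]
  have h2 : ∑ n ∈ S, ‖∑ j ∈ range H, ee (j * x n)‖ ^ 2 ≤
      ∑ j ∈ range H, ∑ k ∈ range H, g (max j k - min j k) := by
    have e1 : ((∑ n ∈ S, ‖∑ j ∈ range H, ee (j * x n)‖ ^ 2 : ℝ) : ℂ) =
        ∑ j ∈ range H, ∑ k ∈ range H, ∑ n ∈ S,
          ee ((j : ℝ) * x n) * (starRingEnd ℂ) (ee ((k : ℝ) * x n)) := by
      push_cast
      have : ∀ n, (‖∑ j ∈ range H, ee (j * x n)‖ : ℂ) ^ 2 = ∑ j ∈ range H, ∑ k ∈ range H,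
          ee ((j : ℝ) * x n) * (starRingEnd ℂ) (ee ((k : ℝ) * x n)) := by
        intro n
        rw [← Complex.mul_conj', map_sum, Finset.sum_mul_sum]
      simp only [this]
      rw [Finset.sum_comm]
      refine sum_congr rfl fun j _ => ?_
      rw [Finset.sum_comm]
    have h3 : (∑ n ∈ S, ‖∑ j ∈ range H, ee (j * x n)‖ ^ 2 : ℝ) =
        ‖((∑ n ∈ S, ‖∑ j ∈ range H, ee (j * x n)‖ ^ 2 : ℝ) : ℂ)‖ := by
      rw [Complex.norm_real, Real.norm_eq_abs, abs_of_nonneg (sum_nonneg fun _ _ => by positivity)]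
    rw [h3, e1]
    refine (norm_sum_le _ _).trans (sum_le_sum fun j _ => ?_)
    refine (norm_sum_le _ _).trans (sum_le_sum fun k _ => ?_)
    rw [hpair]
  have h3 : ∑ j ∈ range H, ∑ k ∈ range H, g (max j k - min j k) ≤
      H * (S.card + 2 * ∑ h ∈ Ico 1 H, g h) := by
    calc ∑ j ∈ range H, ∑ k ∈ range H, g (max j k - min j k)
        ≤ ∑ j ∈ range H, (g 0 + 2 * ∑ h ∈ Ico 1 H, g h) :=
          sum_le_sum fun j hj => sum_dist g hg0 H j (mem_range.1 hj)
      _ = _ := by rw [sum_const, card_range, nsmul_eq_mul, hgz]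
  have h4 := h1.trans (h2.trans h3)
  rw [hg] at h4
  have h5 : ((S.filter P).card : ℝ) * H * H ≤
      4 * (S.card + 2 * ∑ h ∈ Ico 1 H, ‖∑ n ∈ S, ee (h * x n)‖) * H := by
    nlinarith
  exact le_of_mul_le_mul_right h5 hH0

open Classical in
/-- violations of Lang's inequality among finitely many numbers -/
theorem assemble {ε c : ℝ} (hc : 0 < c) (hc2 : 6 * c ≤ Real.log 2 ^ (1 + ε)) (hε : 0 < ε)
    (S : Finset ℕ) (x : ℕ → ℝ) (Q : ℕ) (E : ℕ → ℝ) (hE0 : ∀ q, 0 ≤ E q)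
    (hE : ∀ q : ℕ, 2 ≤ q → q ≤ Q → ∀ h : ℕ, 1 ≤ h → 6 * c * h ≤ q * Real.log q ^ (1 + ε) →
      ‖∑ n ∈ S, ee ((h : ℝ) * (q * x n))‖ ≤ S.card * E q) :
    ((S.filter fun n => ∃ (a : ℤ) (q : ℕ), 2 ≤ q ∧ q ≤ Q ∧
      |x n - (a : ℝ) / q| ≤ c / ((q : ℝ) ^ 2 * Real.log q ^ (1 + ε))).card : ℝ) ≤
      S.card * (48 * c * ∑' q : ℕ, (q : ℝ) * w ε q + 8 * ∑ q ∈ Icc 2 Q, E q) := by
  have hone : ∀ q ∈ Icc 2 Q, ((S.filter fun n => ∃ a : ℤ,
      |x n - (a : ℝ) / q| ≤ c / ((q : ℝ) ^ 2 * Real.log q ^ (1 + ε))).card : ℝ) ≤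
      S.card * (48 * c * ((q : ℝ) * w ε q) + 8 * E q) := by
    intro q hq
    rw [mem_Icc] at hq
    have hq2 : (2 : ℝ) ≤ q := by exact_mod_cast hq.1
    have hq0 : (0 : ℝ) < q := by linarith
    have hlog2 : 0 < Real.log 2 := Real.log_pos (by norm_num)
    have hlog : Real.log 2 ≤ Real.log q := Real.log_le_log (by norm_num) hq2
    obtain ⟨L, hL⟩ : ∃ L : ℝ, L = Real.log q ^ (1 + ε) := ⟨_, rfl⟩
    have hL2 : Real.log 2 ^ (1 + ε) ≤ L := by
      rw [hL]
      exact Real.rpow_le_rpow hlog2.le hlog (by linarith)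
    have hL0 : 0 < L := lt_of_lt_of_le (Real.rpow_pos_of_pos hlog2 _) hL2
    obtain ⟨δ, hδ⟩ : ∃ δ : ℝ, δ = c / (q * L) := ⟨_, rfl⟩
    have hδ0 : 0 < δ := by rw [hδ]; positivity
    have hδ12 : 12 * δ ≤ 1 := by
      rw [hδ, ← mul_div_assoc, div_le_one (by positivity)]
      nlinarith
    obtain ⟨H, hH⟩ : ∃ H : ℕ, H = ⌊1 / (6 * δ)⌋₊ := ⟨_, rfl⟩
    have hH1 : (H : ℝ) ≤ 1 / (6 * δ) := by rw [hH]; exact Nat.floor_le (by positivity)
    have hH2 : 1 / (6 * δ) < H + 1 := by rw [hH]; exact Nat.lt_floor_add_one _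
    have hH3 : (2 : ℝ) ≤ 1 / (6 * δ) := by
      rw [le_div_iff₀ (by positivity)]
      linarith
    have hHpos : 1 ≤ H := by
      rw [hH]
      apply Nat.le_floor
      push_cast
      linarith
    have hH0 : (0 : ℝ) < H := by exact_mod_cast hHpos
    have hH4 : 1 / (12 * δ) ≤ H := by
      have e : 1 / (12 * δ) = 1 / (6 * δ) / 2 := by
        field_simp
        norm_num
      rw [e]
      linarith
    have hH5 : 1 ≤ 12 * δ * H := by
      rw [div_le_iff₀ (by positivity)] at hH4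
      linarith
    have hcnt := count S (fun n => q * x n) H hHpos (δ := δ) (by
      rw [le_div_iff₀ (by positivity)] at hH1
      linarith) (fun n => ∃ a : ℤ,
      |x n - (a : ℝ) / q| ≤ c / ((q : ℝ) ^ 2 * Real.log q ^ (1 + ε))) (by
      rintro n _ ⟨a, ha⟩
      refine ⟨a, ?_⟩
      have e1 : (q : ℝ) * x n - a = q * (x n - a / q) := by field_simp
      rw [e1, abs_mul, abs_of_pos hq0, hδ]
      rw [← hL] at ha
      calc (q : ℝ) * |x n - a / q| ≤ q * (c / ((q : ℝ) ^ 2 * L)) := by gcongr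
        _ = c / (q * L) := by field_simp)
    have hsum : ∑ h ∈ Ico 1 H, ‖∑ n ∈ S, ee (h * (q * x n))‖ ≤ H * (S.card * E q) := by
      calc ∑ h ∈ Ico 1 H, ‖∑ n ∈ S, ee (h * (q * x n))‖ ≤ ∑ h ∈ Ico 1 H, (S.card * E q) := by
            refine sum_le_sum fun h hh => ?_
            rw [mem_Ico] at hh
            refine hE q hq.1 hq.2 h hh.1 ?_
            rw [← hL]
            have h1 : (h : ℝ) ≤ H := by exact_mod_cast hh.2.le
            have h2 : (h : ℝ) ≤ 1 / (6 * δ) := h1.trans hH1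
            rw [hδ, le_div_iff₀ (by positivity)] at h2
            have h3 : (h : ℝ) * (6 * (c / (q * L))) = 6 * c * h / (q * L) := by ring
            rw [h3, div_le_one (by positivity)] at h2
            exact h2
        _ = ((Ico 1 H).card : ℝ) * (S.card * E q) := by rw [sum_const, nsmul_eq_mul]
        _ ≤ H * (S.card * E q) := by
            have h1 : ((Ico 1 H).card : ℝ) ≤ H := by
              rw [Nat.card_Ico]
              exact_mod_cast Nat.sub_le _ _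
            have h2 : 0 ≤ (S.card : ℝ) * E q := mul_nonneg (Nat.cast_nonneg _) (hE0 q)
            exact mul_le_mul_of_nonneg_right h1 h2
    have hS0 : (0 : ℝ) ≤ S.card := Nat.cast_nonneg _
    have hw : (q : ℝ) * w ε q = 1 / (q * L) := by
      have h1 := w_eq ε 1 q hq.1
      rw [one_mul] at h1
      rw [← h1, ← hL]
      field_simp
    have hwδ : δ = c * ((q : ℝ) * w ε q) := by
      rw [hw, hδ]
      ring
    have hfin : ((S.filter fun n => ∃ a : ℤ,
      |x n - (a : ℝ) / q| ≤ c / ((q : ℝ) ^ 2 * Real.log q ^ (1 + ε))).card : ℝ) * H ≤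
        (S.card * (48 * δ + 8 * E q)) * H := by
      refine hcnt.trans ?_
      have h1 : (S.card : ℝ) ≤ S.card * (12 * δ * H) := by nlinarith
      nlinarith
    have := le_of_mul_le_mul_right hfin hH0
    rw [hwδ] at this
    linarith
  calc ((S.filter fun n => ∃ (a : ℤ) (q : ℕ), 2 ≤ q ∧ q ≤ Q ∧
      |x n - (a : ℝ) / q| ≤ c / ((q : ℝ) ^ 2 * Real.log q ^ (1 + ε))).card : ℝ)
      ≤ (((Icc 2 Q).biUnion fun q => S.filter fun n => ∃ a : ℤ,
      |x n - (a : ℝ) / q| ≤ c / ((q : ℝ) ^ 2 * Real.log q ^ (1 + ε))).card : ℝ) := by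
        have : (S.filter fun n => ∃ (a : ℤ) (q : ℕ), 2 ≤ q ∧ q ≤ Q ∧
            |x n - (a : ℝ) / q| ≤ c / ((q : ℝ) ^ 2 * Real.log q ^ (1 + ε))) ⊆
            ((Icc 2 Q).biUnion fun q => S.filter fun n => ∃ a : ℤ,
            |x n - (a : ℝ) / q| ≤ c / ((q : ℝ) ^ 2 * Real.log q ^ (1 + ε))) := by
          intro n hn
          rw [mem_filter] at hn
          obtain ⟨hnS, a, q, h2, hQ, ha⟩ := hn
          rw [mem_biUnion]
          exact ⟨q, mem_Icc.2 ⟨h2, hQ⟩, mem_filter.2 ⟨hnS, a, ha⟩⟩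
        exact_mod_cast card_le_card this
    _ ≤ ∑ q ∈ Icc 2 Q, ((S.filter fun n => ∃ a : ℤ,
      |x n - (a : ℝ) / q| ≤ c / ((q : ℝ) ^ 2 * Real.log q ^ (1 + ε))).card : ℝ) := by
        exact_mod_cast card_biUnion_le
    _ ≤ ∑ q ∈ Icc 2 Q, (S.card * (48 * c * ((q : ℝ) * w ε q) + 8 * E q)) := sum_le_sum hone
    _ = S.card * (48 * c * ∑ q ∈ Icc 2 Q, (q : ℝ) * w ε q + 8 * ∑ q ∈ Icc 2 Q, E q) := by
        rw [← mul_sum, sum_add_distrib, ← mul_sum, ← mul_sum]
    _ ≤ _ := by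
        have h1 : ∑ q ∈ Icc 2 Q, (q : ℝ) * w ε q ≤ ∑' q : ℕ, (q : ℝ) * w ε q :=
          (w_summable ε hε).sum_le_tsum _ (fun q _ => mul_nonneg (Nat.cast_nonneg q) (w_pos ε q).le)
        have hS0 : (0 : ℝ) ≤ S.card := Nat.cast_nonneg _
        gcongr

end Pool.Agent.X121.LG
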