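import Pool.Agent.X121.LG.Count
import Pool.Agent.H221R2.FB_VdcGen

set_option autoImplicit false

/-! # The second derivative test for powers -/

namespace Pool.Agent.X121.LG

open Finset Filter
open Pool.Agent.Y93.VK (ee ee_add norm_ee ee_eq ee_neg ee_zero)
open Pool.Agent.H221R2.FB (Hyp SG EG exp_boundG)
open Pool.Agent.H469R2.NK (e Cq Cq_pos harm_le)

/-- falling factorials -/
noncomputable def D (θ : ℝ) (m : ℕ) : ℝ := ∏ i ∈ range m, (θ - i)

/-- the derivatives of the normalised power -/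
noncomputable def ph (θ : ℝ) (N : ℕ) (m : ℕ) (t : ℝ) : ℝ := D θ m * t ^ (θ - m) * (N : ℝ) ^ (-θ)

lemma ph_der {θ : ℝ} {N : ℕ} (hN : 1 ≤ N) (m : ℕ) (t : ℝ) (ht : t ∈ Set.Icc (N : ℝ) (3 * N)) :
    HasDerivAt (ph θ N m) (ph θ N (m + 1) t) t := by
  have hN0 : (0 : ℝ) < N := by exact_mod_cast hN
  have ht0 : 0 < t := lt_of_lt_of_le hN0 ht.1
  have h1 := (Real.hasDerivAt_rpow_const (p := θ - m) (Or.inl ht0.ne')).const_mul (D θ m)
  have h2 := h1.mul_const ((N : ℝ) ^ (-θ))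
  refine h2.congr_deriv ?_
  unfold ph D
  rw [prod_range_succ]
  have e : θ - ((m + 1 : ℕ) : ℝ) = θ - m - 1 := by push_cast; ring
  rw [e]
  ring

lemma hyp {θ : ℝ} (h0 : 0 < θ) (h1 : θ < 1) {N : ℕ} (hN : 1 ≤ N) :
    Hyp 3 N (θ * (1 - θ) / 27) 2 (ph θ N) := by
  have hN0 : (0 : ℝ) < N := by exact_mod_cast hN
  refine ⟨fun m _ t ht => ph_der hN m t ht, fun m hm1 hm3 t ht => ?_⟩
  have ht0 : 0 < t := lt_of_lt_of_le hN0 ht.1
  obtain ⟨s, hs⟩ : ∃ s : ℝ, s = t / N := ⟨_, rfl⟩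
  have hs1 : 1 ≤ s := by rw [hs, le_div_iff₀ hN0]; linarith [ht.1]
  have hs3 : s ≤ 3 := by rw [hs, div_le_iff₀ hN0]; exact ht.2
  have hs0 : 0 < s := by linarith
  have e1 : (-1) ^ (m + 1) * ph θ N m t * (N : ℝ) ^ m = ((-1) ^ (m + 1) * D θ m) * s ^ (θ - m) := by
    unfold ph
    have e2 : t = s * N := by rw [hs]; field_simp
    have e3 : (N : ℝ) ^ (θ - m) * (N : ℝ) ^ (-θ) * (N : ℝ) ^ m = 1 := by
      rw [← Real.rpow_natCast, ← Real.rpow_add hN0, ← Real.rpow_add hN0]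
      rw [show θ - m + -θ + m = 0 by ring, Real.rpow_zero]
    rw [e2, Real.mul_rpow hs0.le hN0.le]
    calc (-1) ^ (m + 1) * (D θ m * (s ^ (θ - m) * (N : ℝ) ^ (θ - m)) * (N : ℝ) ^ (-θ)) * (N : ℝ) ^ m
        = ((-1) ^ (m + 1) * D θ m) * s ^ (θ - m) *
          ((N : ℝ) ^ (θ - m) * (N : ℝ) ^ (-θ) * (N : ℝ) ^ m) := by ring
      _ = _ := by rw [e3, mul_one]
  rw [e1]
  have hm1' : (1 : ℝ) ≤ m := by exact_mod_cast hm1
  have hm3' : (m : ℝ) ≤ 3 := by exact_mod_cast hm3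
  have hexp : θ - m ≤ 0 := by linarith
  have hsu : s ^ (θ - m) ≤ 1 := Real.rpow_le_one_of_one_le_of_nonpos hs1 hexp
  have hsl : 1 / 27 ≤ s ^ (θ - m) := by
    have h3 : (3 : ℝ) ^ (θ - m) ≤ s ^ (θ - m) := Real.rpow_le_rpow_of_nonpos hs0 hs3 hexp
    have h4 : (3 : ℝ) ^ (-3 : ℝ) ≤ (3 : ℝ) ^ (θ - m) :=
      Real.rpow_le_rpow_of_exponent_le (by norm_num) (by linarith)
    have h5 : (3 : ℝ) ^ (-3 : ℝ) = 1 / 27 := by
      rw [Real.rpow_neg (by norm_num)]
      norm_num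
    rw [h5] at h4
    exact h4.trans h3
  have hsp : 0 < s ^ (θ - m) := Real.rpow_pos_of_pos hs0 _
  have hD : θ * (1 - θ) ≤ (-1) ^ (m + 1) * D θ m ∧ (-1) ^ (m + 1) * D θ m ≤ 2 := by
    interval_cases m
    · simp [D]
      constructor <;> nlinarith
    · simp [D, prod_range_succ]
      constructor <;> nlinarith
    · simp [D, prod_range_succ]
      constructor
      · nlinarith [mul_pos h0 (sub_pos.2 h1)]
      · nlinarith [mul_pos h0 (sub_pos.2 h1)]
  have hd0 : 0 < θ * (1 - θ) := mul_pos h0 (by linarith)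
  constructor
  · calc θ * (1 - θ) / 27 = θ * (1 - θ) * (1 / 27) := by ring
      _ ≤ _ := mul_le_mul hD.1 hsl (by norm_num) (hd0.le.trans hD.1)
  · calc ((-1) ^ (m + 1) * D θ m) * s ^ (θ - m) ≤ 2 * 1 :=
          mul_le_mul hD.2 hsu hsp.le (by norm_num)
      _ = 2 := by ring

theorem sumIoc (g : ℕ → ℂ) (a b : ℕ) :
    ∑ m ∈ Ioc a (a + b), g m = ∑ n ∈ range b, g (a + 1 + n) := by
  induction b with
  | zero => simp
  | succ b ih =>
    rw [sum_range_succ, ← ih, ← Nat.add_assoc, Finset.sum_Ioc_succ_top (by omega)]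
    congr 2
    omega

theorem le_of_sq_le_sq₀ {a b : ℝ} (h : a ^ 2 ≤ b ^ 2) (hb : 0 ≤ b) : a ≤ b :=
  abs_le_of_sq_le_sq' h hb |>.2

lemma e_eq_ee (t : ℝ) : e t = ee t := by
  rw [ee_eq]
  unfold e
  rw [mul_comm]

/-- exponential sums with roots: the second derivative test -/
theorem root_sum {θ : ℝ} (h0 : 0 < θ) (h1 : θ < 1) :
    ∃ C : ℝ, 0 < C ∧ ∀ N : ℕ, 1 ≤ N → ∀ f : ℝ, 1 ≤ f →
      ‖∑ n ∈ Ioc N (2 * N), ee (f * (n : ℝ) ^ θ)‖ ≤
        C * N * (√((1 + Real.log N) * (f * (N : ℝ) ^ θ)) / N + 1 / (f * (N : ℝ) ^ θ)) := by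
  obtain ⟨c0, hc0e⟩ : ∃ c0 : ℝ, c0 = θ * (1 - θ) / 27 := ⟨_, rfl⟩
  have hc0 : 0 < c0 := by rw [hc0e]; exact div_pos (mul_pos h0 (by linarith)) (by norm_num)
  obtain ⟨K, hK⟩ : ∃ K : ℝ, K = √(8 * (Cq 1 * (1 + 8 / c0))) := ⟨_, rfl⟩
  have hCq1 := Cq_pos 1
  have hK0 : 0 ≤ K := by rw [hK]; exact Real.sqrt_nonneg _
  obtain ⟨C, hC⟩ : ∃ C : ℝ, C = (1 + 2 / c0) + √8 + K := ⟨_, rfl⟩
  have hs8 : 0 ≤ √(8 : ℝ) := Real.sqrt_nonneg _
  have hC1 : 1 + 2 / c0 ≤ C := by rw [hC]; linarith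
  have hC2 : √8 ≤ C := by
    rw [hC]
    have : 0 < 2 / c0 := by positivity
    linarith
  have hC3 : K ≤ C := by
    rw [hC]
    have : 0 < 2 / c0 := by positivity
    linarith
  have hC0 : 0 < C := lt_of_lt_of_le (by positivity) hC1
  refine ⟨C, hC0, fun N hN f hf => ?_⟩
  have hN1 : (1 : ℝ) ≤ N := by exact_mod_cast hN
  have hN0 : (0 : ℝ) < N := by linarith
  have hf0 : 0 < f := by linarith
  have hlogN : 0 ≤ Real.log N := Real.log_nonneg hN1
  obtain ⟨Z, hZ⟩ : ∃ Z : ℝ, Z = f * (N : ℝ) ^ θ := ⟨_, rfl⟩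
  have hZ0 : 0 < Z := by rw [hZ]; positivity
  have hZ1 : 1 ≤ Z := by
    rw [hZ]
    have : 1 ≤ (N : ℝ) ^ θ := Real.one_le_rpow hN1 h0.le
    nlinarith
  rw [← hZ]
  have hS : ‖∑ n ∈ Ioc N (2 * N), ee (f * (n : ℝ) ^ θ)‖ =
      ‖SG (ph θ N) Z ((N : ℝ) + 1) N []‖ := by
    unfold SG
    congr 1
    have e1 : 2 * N = N + N := by ring
    rw [e1, Pool.Agent.X121.LG.sumIoc]
    refine sum_congr (by simp) fun k _ => ?_
    rw [← e_eq_ee]
    congr 1
    simp only [EG, ph, D, range_zero, prod_empty, Nat.cast_zero, sub_zero, one_mul]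
    rw [hZ]
    have e3 : (N : ℝ) ^ θ * (N : ℝ) ^ (-θ) = 1 := by
      rw [← Real.rpow_add hN0]
      simp
    push_cast
    calc f * ((N : ℝ) + 1 + k) ^ θ = f * ((N : ℝ) + 1 + k) ^ θ * 1 := by ring
      _ = _ := by rw [← e3]; ring
  rw [hS]
  obtain ⟨S, hSd⟩ : ∃ S : ℝ, S = ‖SG (ph θ N) Z ((N : ℝ) + 1) N []‖ := ⟨_, rfl⟩
  have hS0 : 0 ≤ S := by rw [hSd]; exact norm_nonneg _
  have hStriv : S ≤ N := by
    rw [hSd, ← hS]
    refine (norm_sum_le _ _).trans ?_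
    simp only [norm_ee, sum_const, Nat.card_Ioc, nsmul_eq_mul, mul_one]
    have : 2 * N - N = N := by omega
    rw [this]
  rw [← hSd]
  have hhyp := hyp h0 h1 hN
  rw [← hc0e] at hhyp
  have hsq0 : 0 ≤ √((1 + Real.log N) * Z) := Real.sqrt_nonneg _
  -- it suffices to bound S / N
  suffices h : S / N ≤ C * (√((1 + Real.log N) * Z) / N + 1 / Z) by
    rw [div_le_iff₀ hN0] at h
    calc S ≤ C * (√((1 + Real.log N) * Z) / N + 1 / Z) * N := h
      _ = _ := by ring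
  by_cases hA : 4 * Z ≤ N
  · have h := exp_boundG hc0 (by norm_num) 0 (by norm_num) Z hZ0 N hhyp ((N : ℝ) + 1) N N hN
      (by linarith) le_rfl (by linarith) hN le_rfl (by
        rw [pow_zero, mul_one, zero_add, pow_one]
        rw [← mul_div_assoc, ← mul_div_assoc, div_le_one hN0]
        linarith)
    rw [pow_zero, pow_zero, mul_one, ← hSd, pow_one, zero_add, pow_one] at h
    have e1 : Cq 0 = 1 := rfl
    rw [e1, one_mul] at h
    have h2 : 1 / (N : ℝ) ≤ 1 / Z := one_div_le_one_div_of_le hZ0 (by linarith)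
    have h3 : 2 * (N : ℝ) / (Z * c0) / N = 2 / c0 * (1 / Z) := by field_simp
    rw [h3] at h
    have h4 : 0 ≤ C * (√((1 + Real.log N) * Z) / N) := by positivity
    have h5 : (1 + 2 / c0) * (1 / Z) ≤ C * (1 / Z) :=
      mul_le_mul_of_nonneg_right hC1 (by positivity)
    calc S / N ≤ 1 / N + 2 / c0 * (1 / Z) := h
      _ ≤ (1 + 2 / c0) * (1 / Z) := by linarith
      _ ≤ C * (1 / Z) := h5
      _ ≤ _ := by linarith
  · rw [not_le] at hA
    have hone : 0 ≤ C * (1 / Z) := by positivity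
    suffices h : S / N ≤ C * (√((1 + Real.log N) * Z) / N) by linarith
    by_cases hB : (N : ℝ) ^ 2 ≤ 8 * Z
    · have h2 : (N : ℝ) ≤ √8 * √((1 + Real.log N) * Z) := by
        rw [← Real.sqrt_mul (by norm_num)]
        apply Real.le_sqrt_of_sq_le
        nlinarith
      rw [div_le_iff₀ hN0]
      calc S ≤ N := hStriv
        _ ≤ √8 * √((1 + Real.log N) * Z) := h2
        _ ≤ C * √((1 + Real.log N) * Z) := mul_le_mul_of_nonneg_right hC2 hsq0
        _ = C * (√((1 + Real.log N) * Z) / N) * N := by field_simp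
    · rw [not_le] at hB
      obtain ⟨H, hH⟩ : ∃ H : ℕ, H = ⌊(N : ℝ) ^ 2 / (4 * Z)⌋₊ := ⟨_, rfl⟩
      have hH1 : (H : ℝ) ≤ (N : ℝ) ^ 2 / (4 * Z) := by rw [hH]; exact Nat.floor_le (by positivity)
      have hH2 : (N : ℝ) ^ 2 / (4 * Z) < H + 1 := by rw [hH]; exact Nat.lt_floor_add_one _
      have hH3 : 2 < (N : ℝ) ^ 2 / (4 * Z) := by
        rw [lt_div_iff₀ (by positivity)]
        linarith
      have hHpos : 1 ≤ H := by
        rw [hH]
        apply Nat.le_floor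
        push_cast
        linarith
      have hH0 : (0 : ℝ) < H := by exact_mod_cast hHpos
      have hHr1 : (1 : ℝ) ≤ H := by exact_mod_cast hHpos
      have hHN' : (H : ℝ) ≤ N := by
        refine hH1.trans ?_
        rw [div_le_iff₀ (by positivity)]
        nlinarith
      have hHN : H ≤ N := by exact_mod_cast hHN'
      have hH4 : (N : ℝ) ^ 2 ≤ 8 * Z * H := by
        have h2 : (N : ℝ) ^ 2 / (4 * Z) ≤ 2 * H := by linarith
        rw [div_le_iff₀ (by positivity)] at h2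
        linarith
      have hup : 2 * (Z * (2 / (N : ℝ) ^ (1 + 1) * (H : ℝ) ^ 1)) ≤ 1 := by
        rw [le_div_iff₀ (by positivity)] at hH1
        have e1 : 2 * (Z * (2 / (N : ℝ) ^ (1 + 1) * (H : ℝ) ^ 1)) = H * (4 * Z) / (N : ℝ) ^ 2 := by
          field_simp
          ring
        rw [e1, div_le_one (by positivity)]
        exact hH1
      have h := exp_boundG hc0 (by norm_num) 1 (by norm_num) Z hZ0 N hhyp ((N : ℝ) + 1) N H hN
        (by linarith) le_rfl (by linarith) hHpos hHN hup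
      rw [← hSd] at h
      have hharm : ∑ l ∈ Ico 1 H, (1 : ℝ) / l ≤ 1 + Real.log N := by
        refine (harm_le H).trans ?_
        have := Real.log_le_log hH0 hHN'
        linarith
      have h5 : (S / N) ^ 2 ≤ Cq 1 * (1 / H * ((1 + 8 / c0) * (1 + Real.log N))) := by
        have h6 : (S / N) ^ 2 ≤ Cq 1 * (1 / H +
            (2 * (N : ℝ) ^ (1 + 1) / (Z * c0) / N) * ((∑ l ∈ Ico 1 H, (1 : ℝ) / l) / H) ^ 1) := by
          simpa using h
        refine h6.trans ?_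
        refine mul_le_mul_of_nonneg_left ?_ hCq1.le
        have e2 : 2 * (N : ℝ) ^ (1 + 1) / (Z * c0) / N = 2 / c0 * (N / Z) := by field_simp
        have e3 : (N : ℝ) / Z ≤ 4 := by
          rw [div_le_iff₀ hZ0]
          linarith
        rw [e2, pow_one]
        have h7 : 2 / c0 * ((N : ℝ) / Z) ≤ 8 / c0 := by
          calc 2 / c0 * ((N : ℝ) / Z) ≤ 2 / c0 * 4 := by gcongr
            _ = 8 / c0 := by ring
        have h8 : (∑ l ∈ Ico 1 H, (1 : ℝ) / l) / H ≤ (1 + Real.log N) / H := by gcongr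
        have h9 : (0 : ℝ) ≤ (∑ l ∈ Ico 1 H, (1 : ℝ) / l) / H :=
          div_nonneg (sum_nonneg fun _ _ => by positivity) hH0.le
        calc 1 / (H : ℝ) + 2 / c0 * ((N : ℝ) / Z) * ((∑ l ∈ Ico 1 H, (1 : ℝ) / l) / H)
            ≤ 1 / H * (1 + Real.log N) + 8 / c0 * ((1 + Real.log N) / H) := by
              refine add_le_add ?_ (mul_le_mul h7 h8 h9 (by positivity))
              have : 0 < 1 / (H : ℝ) := by positivity
              nlinarith
          _ = _ := by ring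
      have h10 : (S / N) ^ 2 ≤ (K * (√((1 + Real.log N) * Z) / N)) ^ 2 := by
        refine h5.trans ?_
        rw [mul_pow, div_pow, Real.sq_sqrt (by positivity), hK, Real.sq_sqrt (by positivity)]
        have e4 : 1 / (H : ℝ) ≤ 8 * Z / (N : ℝ) ^ 2 := by
          rw [div_le_div_iff₀ hH0 (by positivity)]
          linarith
        calc Cq 1 * (1 / H * ((1 + 8 / c0) * (1 + Real.log N)))
            ≤ Cq 1 * (8 * Z / (N : ℝ) ^ 2 * ((1 + 8 / c0) * (1 + Real.log N))) := by gcongr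
          _ = _ := by ring
      have h11 : S / N ≤ K * (√((1 + Real.log N) * Z) / N) :=
        le_of_sq_le_sq₀ h10 (by positivity)
      calc S / N ≤ K * (√((1 + Real.log N) * Z) / N) := h11
        _ ≤ _ := mul_le_mul_of_nonneg_right hC3 (by positivity)

end Pool.Agent.X121.LG
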