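import Pool.Agent.X121.LG.Exp
import Pool.Agent.X121.PR.Prm

set_option autoImplicit false

/-! # Lang's inequality for almost all roots of integers and of primes -/

namespace Pool.Agent.X121.LG

open Finset Filter
open Pool.Agent.Y93.VK (ee ee_add norm_ee ee_eq ee_neg ee_zero)
open Pool.Agent.Results.MP_c307ca_nt.AlmostAllToHeight (w w_summable w_eq w_pos)
open Pool.Agent.X121.PR (PS prm rootlog)

lemma loglim (a : ℝ) {σ : ℝ} (hσ : 0 < σ) :
    Tendsto (fun N : ℕ => (1 + Real.log N) ^ a * (N : ℝ) ^ (-σ)) atTop (nhds 0) := by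
  have h1 := (isLittleO_log_rpow_rpow_atTop a hσ).tendsto_div_nhds_zero
  have t1 : Tendsto (fun N : ℕ => Real.exp 1 * (N : ℝ)) atTop atTop :=
    tendsto_natCast_atTop_atTop.const_mul_atTop (Real.exp_pos 1)
  have h2 := (h1.comp t1).const_mul (Real.exp 1 ^ σ)
  rw [mul_zero] at h2
  refine h2.congr' ?_
  filter_upwards [eventually_ge_atTop 1] with N hN
  have hN0 : (0 : ℝ) < N := by exact_mod_cast hN
  simp only [Function.comp]
  rw [Real.log_mul (Real.exp_pos 1).ne' hN0.ne', Real.log_exp,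
    Real.mul_rpow (Real.exp_pos 1).le hN0.le, Real.rpow_neg hN0.le]
  have h3 : 0 < Real.exp 1 ^ σ := Real.rpow_pos_of_pos (Real.exp_pos 1) _
  have h4 : 0 < (N : ℝ) ^ σ := Real.rpow_pos_of_pos hN0 _
  field_simp

lemma harm2 (Q : ℕ) : ∑ q ∈ Icc 2 Q, (1 : ℝ) / q ≤ 1 + Real.log Q := by
  have h := harmonic_le_one_add_log Q
  rw [harmonic_eq_sum_Icc] at h
  push_cast at h
  refine le_trans ?_ h
  simp only [one_div]
  exact sum_le_sum_of_subset_of_nonneg (Icc_subset_Icc (by norm_num) le_rfl)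
    fun _ _ _ => by positivity

open Classical in
/-- roots of integers -/
theorem integers {θ κ ε η c : ℝ} (h0 : 0 < θ) (h1 : θ < 1) (hκ : κ < 1 / 2 - θ / 4) (hε : 0 < ε)
    (hη : 0 < η) (hc : 0 < c) (hc2 : 6 * c ≤ Real.log 2 ^ (1 + ε))
    (hcη : 48 * c * ∑' q : ℕ, (q : ℝ) * w ε q ≤ η / 2) :
    ∀ᶠ N : ℕ in atTop, (((Ioc N (2 * N)).filter fun n : ℕ => ∃ (a : ℤ) (q : ℕ), 2 ≤ q ∧
      (q : ℝ) ≤ (N : ℝ) ^ κ ∧
      |(n : ℝ) ^ θ - (a : ℝ) / q| ≤ c / ((q : ℝ) ^ 2 * Real.log q ^ (1 + ε))).card : ℝ) ≤ η * N := by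
  obtain ⟨C, hC, hroot⟩ := root_sum h0 h1
  obtain ⟨κ', hκ'⟩ : ∃ κ' : ℝ, κ' = max κ 0 := ⟨_, rfl⟩
  have hκ'0 : 0 ≤ κ' := by rw [hκ']; exact le_max_right _ _
  have hκκ' : κ ≤ κ' := by rw [hκ']; exact le_max_left _ _
  have hκ'1 : κ' < 1 / 2 - θ / 4 := by
    rw [hκ']
    exact max_lt hκ (by linarith)
  obtain ⟨σ, hσ⟩ : ∃ σ : ℝ, σ = 1 - θ / 2 - 2 * κ' := ⟨_, rfl⟩
  have hσ0 : 0 < σ := by rw [hσ]; linarith
  have l1 := (loglim ((2 + ε) / 2) hσ0).const_mul (8 * C / √(6 * c))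
  have l2 := (loglim 1 h0).const_mul (8 * C)
  rw [mul_zero] at l1 l2
  filter_upwards [l1.eventually_le_const (show (0 : ℝ) < η / 4 by positivity),
    l2.eventually_le_const (show (0 : ℝ) < η / 4 by positivity), eventually_ge_atTop 1]
    with N hN1 hN2 hN
  have hNr : (1 : ℝ) ≤ N := by exact_mod_cast hN
  have hN0 : (0 : ℝ) < N := by linarith
  have hlogN : 0 ≤ Real.log N := Real.log_nonneg hNr
  obtain ⟨l, hl⟩ : ∃ l : ℝ, l = 1 + Real.log N := ⟨_, rfl⟩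
  rw [← hl] at hN1 hN2
  have hl1 : 1 ≤ l := by rw [hl]; linarith
  have hl0 : 0 < l := by linarith
  obtain ⟨Q, hQ⟩ : ∃ Q : ℕ, Q = ⌊(N : ℝ) ^ κ⌋₊ := ⟨_, rfl⟩
  have hQ1 : (Q : ℝ) ≤ (N : ℝ) ^ κ' := by
    rw [hQ]
    exact (Nat.floor_le (by positivity)).trans (Real.rpow_le_rpow_of_exponent_le hNr hκκ')
  have hQN : (N : ℝ) ^ κ' ≤ N := by
    calc (N : ℝ) ^ κ' ≤ (N : ℝ) ^ (1 : ℝ) := Real.rpow_le_rpow_of_exponent_le hNr (by linarith)
      _ = N := Real.rpow_one _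
  have h6c : 0 < √(6 * c) := Real.sqrt_pos.2 (by positivity)
  obtain ⟨W, hW⟩ : ∃ W : ℝ, W = l ^ ((2 + ε) / 2) * (N : ℝ) ^ (θ / 2) / √(6 * c) := ⟨_, rfl⟩
  have hW0 : 0 ≤ W := by rw [hW]; positivity
  have hW2 : W ^ 2 = l * (l ^ (1 + ε) / (6 * c)) * (N : ℝ) ^ θ := by
    rw [hW, div_pow, mul_pow, Real.sq_sqrt (by positivity), ← Real.rpow_natCast (l ^ _),
      ← Real.rpow_natCast ((N : ℝ) ^ _), ← Real.rpow_mul hl0.le, ← Real.rpow_mul hN0.le]
    have e1 : (2 + ε) / 2 * ((2 : ℕ) : ℝ) = 1 + (1 + ε) := by push_cast; ring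
    have e2 : θ / 2 * ((2 : ℕ) : ℝ) = θ := by push_cast; ring
    rw [e1, e2, Real.rpow_add hl0, Real.rpow_one]
    ring
  obtain ⟨E, hE⟩ : ∃ E : ℕ → ℝ, E = fun q : ℕ => C * ((Q : ℝ) * W / N + 1 / (N : ℝ) ^ θ * (1 / (q : ℝ))) :=
    ⟨_, rfl⟩
  have hE0 : ∀ q, 0 ≤ E q := by
    intro q
    rw [hE]
    positivity
  have hcard : ((Ioc N (2 * N)).card : ℝ) = N := by
    rw [Nat.card_Ioc]
    have : 2 * N - N = N := by omega
    rw [this]
  have hmain := assemble hc hc2 hε (Ioc N (2 * N)) (fun n => (n : ℝ) ^ θ) Q E hE0 (by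
    intro q hq2 hqQ h hh1 hh
    have hqr : (2 : ℝ) ≤ q := by exact_mod_cast hq2
    have hq0 : (0 : ℝ) < q := by linarith
    have hhr : (1 : ℝ) ≤ h := by exact_mod_cast hh1
    have hf : (1 : ℝ) ≤ h * q := by nlinarith
    have hr := hroot N hN (h * q) hf
    have e1 : ∀ n : ℕ, (h : ℝ) * (q * (n : ℝ) ^ θ) = h * q * (n : ℝ) ^ θ := fun n => by ring
    simp only [e1]
    refine hr.trans ?_
    rw [hcard, hE]
    have hqN : (q : ℝ) ≤ (Q : ℝ) := by exact_mod_cast hqQ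
    have hlq : Real.log q ≤ l := by
      have : Real.log q ≤ Real.log N := Real.log_le_log hq0 (hqN.trans (hQ1.trans hQN))
      rw [hl]
      linarith
    have hlq0 : 0 ≤ Real.log q := Real.log_nonneg (by linarith)
    have hLq : Real.log q ^ (1 + ε) ≤ l ^ (1 + ε) :=
      Real.rpow_le_rpow hlq0 hlq (by linarith)
    have hNθ : 0 < (N : ℝ) ^ θ := Real.rpow_pos_of_pos hN0 _
    have hfle : (h : ℝ) * q ≤ (Q : ℝ) ^ 2 * (l ^ (1 + ε) / (6 * c)) := by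
      have h2 : (h : ℝ) ≤ q * l ^ (1 + ε) / (6 * c) := by
        rw [le_div_iff₀ (by positivity)]
        calc (h : ℝ) * (6 * c) = 6 * c * h := by ring
          _ ≤ q * Real.log q ^ (1 + ε) := hh
          _ ≤ q * l ^ (1 + ε) := by gcongr
      calc (h : ℝ) * q ≤ (q * l ^ (1 + ε) / (6 * c)) * q := by gcongr
        _ = (q : ℝ) ^ 2 * (l ^ (1 + ε) / (6 * c)) := by ring
        _ ≤ _ := by gcongr
    have hsq : √((1 + Real.log N) * (h * q * (N : ℝ) ^ θ)) ≤ Q * W := by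
      rw [← hl]
      apply Real.sqrt_le_iff.2
      refine ⟨by positivity, ?_⟩
      rw [mul_pow, hW2]
      calc l * (h * q * (N : ℝ) ^ θ) ≤ l * ((Q : ℝ) ^ 2 * (l ^ (1 + ε) / (6 * c)) * (N : ℝ) ^ θ) := by
            gcongr
        _ = _ := by ring
    have hinv : 1 / (h * q * (N : ℝ) ^ θ) ≤ 1 / (N : ℝ) ^ θ * (1 / q) := by
      rw [one_div_mul_one_div]
      apply one_div_le_one_div_of_le (by positivity)
      have : 0 < (N : ℝ) ^ θ * q := by positivity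
      nlinarith
    calc C * N * (√((1 + Real.log N) * (h * q * (N : ℝ) ^ θ)) / N + 1 / (h * q * (N : ℝ) ^ θ))
        ≤ C * N * (Q * W / N + 1 / (N : ℝ) ^ θ * (1 / q)) := by gcongr
      _ = _ := by ring)
  rw [hcard] at hmain
  have hsumE : 8 * ∑ q ∈ Icc 2 Q, E q ≤ η / 2 := by
    rw [hE, ← mul_sum, sum_add_distrib, sum_const, nsmul_eq_mul, ← mul_sum]
    have hcQ : ((Icc 2 Q).card : ℝ) ≤ Q := by
      rw [Nat.card_Icc]
      have : Q + 1 - 2 ≤ Q := by omega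
      exact_mod_cast this
    have hlogQ : Real.log Q ≤ Real.log N := by
      rcases Nat.eq_zero_or_pos Q with hq | hq
      · rw [hq]
        simpa using hlogN
      · exact Real.log_le_log (by exact_mod_cast hq) (hQ1.trans hQN)
    have t1 : ((Icc 2 Q).card : ℝ) * ((Q : ℝ) * W / N) ≤ l ^ ((2 + ε) / 2) * (N : ℝ) ^ (-σ) / √(6 * c) := by
      have e1 : (N : ℝ) ^ (-σ) = (N : ℝ) ^ κ' * ((N : ℝ) ^ κ' * ((N : ℝ) ^ (θ / 2) / N)) := by
        rw [← Real.rpow_sub_one hN0.ne', ← Real.rpow_add hN0, ← Real.rpow_add hN0]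
        congr 1
        rw [hσ]
        ring
      rw [e1, hW]
      calc ((Icc 2 Q).card : ℝ) * ((Q : ℝ) * (l ^ ((2 + ε) / 2) * (N : ℝ) ^ (θ / 2) / √(6 * c)) / N)
          ≤ (N : ℝ) ^ κ' * ((N : ℝ) ^ κ' * (l ^ ((2 + ε) / 2) * (N : ℝ) ^ (θ / 2) / √(6 * c)) / N) := by
            have := hcQ.trans hQ1
            gcongr
        _ = _ := by ring
    have t2 : 1 / (N : ℝ) ^ θ * ∑ q ∈ Icc 2 Q, (1 : ℝ) / q ≤ l ^ (1 : ℝ) * (N : ℝ) ^ (-θ) := by
      rw [Real.rpow_one, Real.rpow_neg hN0.le, one_div, mul_comm]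
      have := harm2 Q
      have h3 : ∑ q ∈ Icc 2 Q, (1 : ℝ) / q ≤ l := by rw [hl]; linarith
      gcongr
    calc 8 * (C * (((Icc 2 Q).card : ℝ) * ((Q : ℝ) * W / N) +
          1 / (N : ℝ) ^ θ * ∑ q ∈ Icc 2 Q, (1 : ℝ) / q))
        ≤ 8 * (C * (l ^ ((2 + ε) / 2) * (N : ℝ) ^ (-σ) / √(6 * c) + l ^ (1 : ℝ) * (N : ℝ) ^ (-θ))) := by
          gcongr
      _ = 8 * C / √(6 * c) * (l ^ ((2 + ε) / 2) * (N : ℝ) ^ (-σ)) +
          8 * C * (l ^ (1 : ℝ) * (N : ℝ) ^ (-θ)) := by ring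
      _ ≤ η / 4 + η / 4 := add_le_add hN1 hN2
      _ = η / 2 := by ring
  have hsub : ((Ioc N (2 * N)).filter fun n : ℕ => ∃ (a : ℤ) (q : ℕ), 2 ≤ q ∧
      (q : ℝ) ≤ (N : ℝ) ^ κ ∧
      |(n : ℝ) ^ θ - (a : ℝ) / q| ≤ c / ((q : ℝ) ^ 2 * Real.log q ^ (1 + ε))) ⊆
      ((Ioc N (2 * N)).filter fun n : ℕ => ∃ (a : ℤ) (q : ℕ), 2 ≤ q ∧ q ≤ Q ∧
      |(n : ℝ) ^ θ - (a : ℝ) / q| ≤ c / ((q : ℝ) ^ 2 * Real.log q ^ (1 + ε))) := by
    intro n hn
    rw [mem_filter] at hn ⊢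
    obtain ⟨hnS, a, q, h2, hqκ, ha⟩ := hn
    refine ⟨hnS, a, q, h2, ?_, ha⟩
    rw [hQ]
    exact Nat.le_floor hqκ
  have hle : (((Ioc N (2 * N)).filter fun n : ℕ => ∃ (a : ℤ) (q : ℕ), 2 ≤ q ∧
      (q : ℝ) ≤ (N : ℝ) ^ κ ∧
      |(n : ℝ) ^ θ - (a : ℝ) / q| ≤ c / ((q : ℝ) ^ 2 * Real.log q ^ (1 + ε))).card : ℝ) ≤
      (((Ioc N (2 * N)).filter fun n : ℕ => ∃ (a : ℤ) (q : ℕ), 2 ≤ q ∧ q ≤ Q ∧
      |(n : ℝ) ^ θ - (a : ℝ) / q| ≤ c / ((q : ℝ) ^ 2 * Real.log q ^ (1 + ε))).card : ℝ) := by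
    exact_mod_cast card_le_card hsub
  calc _ ≤ _ := hle
    _ ≤ _ := hmain
    _ ≤ N * (η / 2 + η / 2) := by gcongr
    _ = η * N := by ring

open Classical in
/-- roots of primes -/
theorem primes {θ ε η c : ℝ} (h0 : 0 < θ) (h1 : ∀ m : ℕ, θ ≠ m) (hε : 0 < ε)
    (hη : 0 < η) (hc : 0 < c) (hc2 : 6 * c ≤ Real.log 2 ^ (1 + ε))
    (hcη : 48 * c * ∑' q : ℕ, (q : ℝ) * w ε q ≤ η / 2) :
    ∀ᶠ N : ℕ in atTop, (((PS N).filter fun n : ℕ => ∃ (a : ℤ) (q : ℕ), 2 ≤ q ∧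
      (q : ℝ) ≤ Real.exp (Real.log N ^ (1 / 4 : ℝ)) ∧
      |(n : ℝ) ^ θ - (a : ℝ) / q| ≤ c / ((q : ℝ) ^ 2 * Real.log q ^ (1 + ε))).card : ℝ) ≤
        η * (PS N).card := by
  have hy : ∀ᶠ y : ℝ in atTop, ∀ N : ℕ, (N : ℝ) = Real.exp (y ^ 70) →
      (((PS N).filter fun n : ℕ => ∃ (a : ℤ) (q : ℕ), 2 ≤ q ∧
      (q : ℝ) ≤ Real.exp (Real.log N ^ (1 / 4 : ℝ)) ∧
      |(n : ℝ) ^ θ - (a : ℝ) / q| ≤ c / ((q : ℝ) ^ 2 * Real.log q ^ (1 + ε))).card : ℝ) ≤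
        η * (PS N).card := by
    have t18 : Tendsto (fun y : ℝ => y ^ 18) atTop atTop := tendsto_pow_atTop (by norm_num)
    have l1 : ∀ᶠ t : ℝ in atTop, t ^ (1 + ε) / (6 * c) ≤ Real.exp t := by
      have h2 := isLittleO_rpow_exp_atTop (1 + ε)
      have h3 := h2.def (show (0 : ℝ) < 6 * c by positivity)
      filter_upwards [h3, eventually_ge_atTop 0] with t ht ht0
      rw [Real.norm_of_nonneg (Real.rpow_nonneg ht0 _), Real.norm_of_nonneg (Real.exp_pos t).le] at ht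
      rw [div_le_iff₀ (by positivity)]
      linarith
    have l2 : ∀ᶠ t : ℝ in atTop, 8 * Real.exp (-t) ≤ η / 2 := by
      have h2 : Tendsto (fun t : ℝ => 8 * Real.exp (-t)) atTop (nhds (8 * 0)) :=
        (Real.tendsto_exp_neg_atTop_nhds_zero).const_mul 8
      rw [mul_zero] at h2
      exact h2.eventually_le_const (by positivity)
    filter_upwards [prm h0 h1, t18.eventually l1, l2, eventually_ge_atTop (5 : ℝ)]
      with y hprm hy1 hy2 hy5 N hN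
    have hy0 : (0 : ℝ) < y := by linarith
    have hy1' : (1 : ℝ) ≤ y := by linarith
    have hlogN : Real.log N = y ^ 70 := by rw [hN, Real.log_exp]
    have hquart : Real.log N ^ (1 / 4 : ℝ) ≤ y ^ 18 := by
      rw [hlogN]
      calc (y ^ 70) ^ (1 / 4 : ℝ) ≤ (y ^ 72) ^ (1 / 4 : ℝ) := by
            apply Real.rpow_le_rpow (by positivity) _ (by norm_num)
            exact pow_le_pow_right₀ hy1' (by norm_num)
        _ = y ^ 18 := by
            rw [show y ^ 72 = (y ^ 18) ^ (4 : ℕ) by ring, ← Real.rpow_natCast (y ^ 18) 4,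
              ← Real.rpow_mul (by positivity)]
            norm_num
    obtain ⟨Q, hQ⟩ : ∃ Q : ℕ, Q = ⌊Real.exp (Real.log N ^ (1 / 4 : ℝ))⌋₊ := ⟨_, rfl⟩
    have hQ1 : (Q : ℝ) ≤ Real.exp (y ^ 18) := by
      rw [hQ]
      exact (Nat.floor_le (Real.exp_pos _).le).trans (Real.exp_le_exp.2 hquart)
    obtain ⟨-, hsum⟩ := hprm N hN
    have hmain := assemble hc hc2 hε (PS N) (fun n => (n : ℝ) ^ θ) Q
      (fun _ => Real.exp (-(y ^ 20 / 11))) (fun _ => (Real.exp_pos _).le) (by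
      intro q hq2 hqQ h hh1 hh
      have hqr : (2 : ℝ) ≤ q := by exact_mod_cast hq2
      have hq0 : (0 : ℝ) < q := by linarith
      have hhr : (1 : ℝ) ≤ h := by exact_mod_cast hh1
      have hf : (1 : ℝ) ≤ h * q := by nlinarith
      have hf0 : (0 : ℝ) < h * q := by linarith
      have e1 : ∀ n : ℕ, (h : ℝ) * (q * (n : ℝ) ^ θ) = h * q * (n : ℝ) ^ θ := fun n => by ring
      simp only [e1]
      have hqN : (q : ℝ) ≤ Real.exp (y ^ 18) := le_trans (by exact_mod_cast hqQ) hQ1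
      have hlq : Real.log q ≤ y ^ 18 := by
        rw [← Real.log_exp (y ^ 18)]
        exact Real.log_le_log hq0 hqN
      have hlq0 : 0 ≤ Real.log q := Real.log_nonneg (by linarith)
      have hLq : Real.log q ^ (1 + ε) ≤ (y ^ 18) ^ (1 + ε) :=
        Real.rpow_le_rpow hlq0 hlq (by linarith)
      have hfle : (h : ℝ) * q ≤ Real.exp (y ^ 79 / 100) := by
        have h2 : (h : ℝ) ≤ q * ((y ^ 18) ^ (1 + ε) / (6 * c)) := by
          rw [← mul_div_assoc, le_div_iff₀ (by positivity)]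
          calc (h : ℝ) * (6 * c) = 6 * c * h := by ring
            _ ≤ q * Real.log q ^ (1 + ε) := hh
            _ ≤ q * (y ^ 18) ^ (1 + ε) := by gcongr
        calc (h : ℝ) * q ≤ (q * ((y ^ 18) ^ (1 + ε) / (6 * c))) * q := by gcongr
          _ ≤ (Real.exp (y ^ 18) * Real.exp (y ^ 18)) * Real.exp (y ^ 18) := by gcongr
          _ = Real.exp (3 * y ^ 18) := by
              rw [← Real.exp_add, ← Real.exp_add]
              congr 1
              ring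
          _ ≤ _ := by
              apply Real.exp_le_exp.2
              have h3 : (5 : ℝ) ^ 4 ≤ y ^ 4 := pow_le_pow_left₀ (by norm_num) hy5 4
              have h4 : y ^ 4 ≤ y ^ 61 := pow_le_pow_right₀ hy1' (by norm_num)
              have h5 : (0 : ℝ) < y ^ 18 := by positivity
              have h6 : y ^ 79 = y ^ 61 * y ^ 18 := by ring
              rw [h6]
              norm_num at h3
              nlinarith
      have := hsum (h * q) (by rw [abs_of_pos hf0]; exact hf) (by rw [abs_of_pos hf0]; exact hfle)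
      exact this)
    have hsumE : 8 * ∑ q ∈ Icc 2 Q, Real.exp (-(y ^ 20 / 11)) ≤ η / 2 := by
      rw [sum_const, nsmul_eq_mul]
      have hcQ : ((Icc 2 Q).card : ℝ) ≤ Q := by
        rw [Nat.card_Icc]
        have : Q + 1 - 2 ≤ Q := by omega
        exact_mod_cast this
      calc 8 * (((Icc 2 Q).card : ℝ) * Real.exp (-(y ^ 20 / 11)))
          ≤ 8 * (Real.exp (y ^ 18) * Real.exp (-(y ^ 20 / 11))) := by
            have := hcQ.trans hQ1
            gcongr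
        _ = 8 * Real.exp (y ^ 18 - y ^ 20 / 11) := by
            rw [← Real.exp_add]
            ring_nf
        _ ≤ 8 * Real.exp (-y) := by
            have h3 : (5 : ℝ) ^ 2 ≤ y ^ 2 := pow_le_pow_left₀ (by norm_num) hy5 2
            have h5 : y ≤ y ^ 18 := le_self_pow₀ hy1' (by norm_num)
            have h6 : y ^ 20 = y ^ 2 * y ^ 18 := by ring
            have h7 : y ^ 18 - y ^ 20 / 11 ≤ -y := by
              rw [h6]
              norm_num at h3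
              nlinarith
            gcongr
        _ ≤ η / 2 := hy2
    have hsub : ((PS N).filter fun n : ℕ => ∃ (a : ℤ) (q : ℕ), 2 ≤ q ∧
        (q : ℝ) ≤ Real.exp (Real.log N ^ (1 / 4 : ℝ)) ∧
        |(n : ℝ) ^ θ - (a : ℝ) / q| ≤ c / ((q : ℝ) ^ 2 * Real.log q ^ (1 + ε))) ⊆
        ((PS N).filter fun n : ℕ => ∃ (a : ℤ) (q : ℕ), 2 ≤ q ∧ q ≤ Q ∧
        |(n : ℝ) ^ θ - (a : ℝ) / q| ≤ c / ((q : ℝ) ^ 2 * Real.log q ^ (1 + ε))) := by
      intro n hn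
      rw [mem_filter] at hn ⊢
      obtain ⟨hnS, a, q, h2, hqκ, ha⟩ := hn
      refine ⟨hnS, a, q, h2, ?_, ha⟩
      rw [hQ]
      exact Nat.le_floor hqκ
    have hle : (((PS N).filter fun n : ℕ => ∃ (a : ℤ) (q : ℕ), 2 ≤ q ∧
        (q : ℝ) ≤ Real.exp (Real.log N ^ (1 / 4 : ℝ)) ∧
        |(n : ℝ) ^ θ - (a : ℝ) / q| ≤ c / ((q : ℝ) ^ 2 * Real.log q ^ (1 + ε))).card : ℝ) ≤
        (((PS N).filter fun n : ℕ => ∃ (a : ℤ) (q : ℕ), 2 ≤ q ∧ q ≤ Q ∧
        |(n : ℝ) ^ θ - (a : ℝ) / q| ≤ c / ((q : ℝ) ^ 2 * Real.log q ^ (1 + ε))).card : ℝ) := by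
      exact_mod_cast card_le_card hsub
    calc _ ≤ _ := hle
      _ ≤ _ := hmain
      _ ≤ (PS N).card * (η / 2 + η / 2) := by gcongr
      _ = η * (PS N).card := by ring
  have t1 : Tendsto (fun N : ℕ => Real.log N ^ (1 / 70 : ℝ)) atTop atTop :=
    (tendsto_rpow_atTop (by norm_num)).comp (Real.tendsto_log_atTop.comp tendsto_natCast_atTop_atTop)
  filter_upwards [t1.eventually hy, eventually_ge_atTop 1] with N h hN
  exact h N (rootlog hN)

end Pool.Agent.X121.LG
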